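import Pool.Agent.helper65.GF.SpecG

/-!
# Row YM2 (MP_ea335c_an): the space of the solutions of `z f' = Q F`, half-integer exponents
-/

set_option autoImplicit false

namespace Pool.Agent.GD

open Finset

lemma YM2_cv_cmbh (p : ℕ) (Q : ℕ → ℂ) (Φ : ℕ → ℕ → ℂ) (c : ℕ → ℂ) (n : ℕ) :
    cv Q (cmbh p Φ c) n = ∑ m ∈ range (p + 1), c m * cv Q (Φ m) n := by
  unfold cv cmbh
  simp only [Finset.mul_sum]
  rw [Finset.sum_comm]
  refine Finset.sum_congr rfl fun m _ => Finset.sum_congr rfl fun r _ => by ring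

lemma YM2_ne (n : ℕ) : (2 * (n : ℂ) + 1) ≠ 0 := by
  have h : ((2 * n + 1 : ℕ) : ℂ) ≠ 0 := Nat.cast_ne_zero.2 (by omega)
  push_cast at h
  exact h

/-- The space of the solutions of `z f' = Q F`, half-integer exponents. -/
theorem YM2 (h1 : YM1_stmt) : YM2_stmt := by
  intro p Q Φ hQ hR hGlow hGdiag hV
  have hlow : ∀ m n, n < m → cv Q (Φ m) n = 0 := by
    intro m n h
    unfold cv
    refine Finset.sum_eq_zero fun r hr => ?_
    rw [hGlow m r (by have := mem_range.1 hr; omega), mul_zero]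
  have hdiag : ∀ m, cv Q (Φ m) m = 1 := by
    intro m
    unfold cv
    rw [Finset.sum_range_succ, Nat.sub_self, hQ, hGdiag m, Finset.sum_eq_zero (fun r hr => by
      rw [hGlow m r (mem_range.1 hr), mul_zero])]
    ring
  let Ψ : ℕ → ℕ → ℂ := fun m n => (2 * (m : ℂ) + 1) * cv Q (Φ m) n / (2 * (n : ℂ) + 1)
  have hΨ : ∀ m n : ℕ, (2 * (n : ℂ) + 1) * Ψ m n = (2 * (m : ℂ) + 1) * cv Q (Φ m) n := by
    intro m n
    change (2 * (n : ℂ) + 1) * ((2 * (m : ℂ) + 1) * cv Q (Φ m) n / (2 * (n : ℂ) + 1)) = _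
    exact mul_div_cancel₀ _ (YM2_ne n)
  have hlowΨ : ∀ m n, n < m → Ψ m n = 0 := by
    intro m n h
    change (2 * (m : ℂ) + 1) * cv Q (Φ m) n / (2 * (n : ℂ) + 1) = 0
    rw [hlow m n h, mul_zero, zero_div]
  have hdiagΨ : ∀ m, Ψ m m = 1 := by
    intro m
    change (2 * (m : ℂ) + 1) * cv Q (Φ m) m / (2 * (m : ℂ) + 1) = 1
    rw [hdiag m, mul_one, div_self (YM2_ne m)]
  have hcΨ : ∀ (c : ℕ → ℂ) (n : ℕ), (2 * (n : ℂ) + 1) * cmbh p Ψ c n =
      cv Q (cmbh p Φ (fun m => c m * (2 * (m : ℂ) + 1))) n := by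
    intro c n
    rw [YM2_cv_cmbh]
    unfold cmbh
    rw [Finset.mul_sum]
    refine Finset.sum_congr rfl fun m _ => ?_
    calc (2 * (n : ℂ) + 1) * (c m * Ψ m n) = c m * ((2 * (n : ℂ) + 1) * Ψ m n) := by ring
      _ = c m * ((2 * (m : ℂ) + 1) * cv Q (Φ m) n) := by rw [hΨ]
      _ = c m * (2 * (m : ℂ) + 1) * cv Q (Φ m) n := by ring
  refine ⟨Ψ, ⟨hlowΨ, hdiagΨ, ?_⟩, ?_⟩
  · intro c n hn
    exact h1 p Q Φ hQ hR hGlow hGdiag hV (fun m => c m * (2 * (m : ℂ) + 1)) (cmbh p Ψ c) (hcΨ c) n hn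
  · intro c b hb
    refine ⟨fun m => c m / (2 * (m : ℂ) + 1), fun n => ?_⟩
    have h3 := hcΨ (fun m => c m / (2 * (m : ℂ) + 1)) n
    have h2 : cmbh p Φ (fun m => c m / (2 * (m : ℂ) + 1) * (2 * (m : ℂ) + 1)) = cmbh p Φ c := by
      funext r
      unfold cmbh
      refine Finset.sum_congr rfl fun m _ => ?_
      change c m / (2 * (m : ℂ) + 1) * (2 * (m : ℂ) + 1) * Φ m r = c m * Φ m r
      rw [div_mul_cancel₀ _ (YM2_ne m)]
    rw [h2, ← hb n] at h3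
    exact (mul_left_cancel₀ (YM2_ne n) h3).symm

end Pool.Agent.GD
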